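import Mathlib
import Pool.Agent.H374R2.T.Final

/-!
The Fermat-Catalan equation for one hundred per cent of the pairs of bases: for almost all coprime
pairs `(a, b)` of positive integers none of the numbers `a^m + b^n`, `b^n - a^m`, `a^m - b^n` with
`m, n ≥ 1` is a perfect power `c^k`, `k ≥ 2`. The third base and all exponents are unbounded.
-/

namespace Pool.Agent.Results.MP_2738db_nt.AlmostAllBases

theorem result : ∀ ε : ℝ, 0 < ε → ∃ N₀ : ℕ, ∀ N : ℕ, N₀ ≤ N →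
    (({z : ℕ × ℕ | 0 < z.1 ∧ z.1 ≤ N ∧ 0 < z.2 ∧ z.2 ≤ N ∧ Nat.Coprime z.1 z.2 ∧
      ∃ m n k c : ℕ, 0 < m ∧ 0 < n ∧ 2 ≤ k ∧ 0 < c ∧
        (z.1 ^ m + z.2 ^ n = c ^ k ∨ z.1 ^ m + c ^ k = z.2 ^ n ∨
          z.2 ^ n + c ^ k = z.1 ^ m)}.ncard : ℕ) : ℝ) ≤ ε * (N : ℝ) ^ 2 := by
  intro ε hε
  obtain ⟨N₀, hN₀⟩ := Pool.Agent.H374R2.T.main ε hε
  exact ⟨N₀, fun N hN => hN₀ N hN⟩

end Pool.Agent.Results.MP_2738db_nt.AlmostAllBases
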