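import Mathlib
import Pool.Agent.H374R2.W.Final

/-!
The Fermat-Catalan equation with one large exponent, for one hundred per cent of the integers `B`
together with every second base `A ≤ N ^ (1 - ε)`. For every `ε > 0` there is `Z₀` such that for
all but `ε N` of the integers `B ≤ N` and for every `A ≤ N ^ (1 - ε)` coprime to `B` none of the
numbers `A ^ x + B ^ y`, `|A ^ x - B ^ y|` (`x, y ≥ 1`) is a `z`-th power with `z ≥ Z₀`.
-/

namespace Pool.Agent.Results.MP_2738db_nt.LargeExponent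

theorem result : ∀ ε : ℝ, 0 < ε → ∃ Z₀ N₀ : ℕ, ∀ N : ℕ, N₀ ≤ N →
    (({B : ℕ | 0 < B ∧ B ≤ N ∧ ∃ A x y z C : ℕ, 0 < A ∧ (A : ℝ) ≤ (N : ℝ) ^ (1 - ε) ∧
      Nat.Coprime A B ∧ 0 < x ∧ 0 < y ∧ Z₀ ≤ z ∧ 0 < C ∧
      (A ^ x + B ^ y = C ^ z ∨ A ^ x + C ^ z = B ^ y ∨ B ^ y + C ^ z = A ^ x)}.ncard : ℕ) : ℝ) ≤
      ε * N := by
  intro ε hε
  exact Pool.Agent.H374R2.W.main hε

end Pool.Agent.Results.MP_2738db_nt.LargeExponent
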