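import Mathlib
import Pool.Agent.H374R2.V.FinalZ

/-!
The Fermat-Catalan conjecture for one hundred per cent of the integers `B` together with every
small base `A`. For every `K` and `ε > 0` there is `δ > 0` such that for all but `ε N` of the
integers `B ≤ N` and for every `A` coprime to `B`: if `A ≤ N ^ δ` then none of the numbers
`A ^ x + B ^ y`, `|A ^ x - B ^ y|` (`x, y ≥ 1`) is a `z`-th power with `z ≥ 3`, and if `2 ≤ A ≤ K`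
none of them is a perfect power `C ^ z`, `z ≥ 2`, at all.
-/

namespace Pool.Agent.Results.MP_2738db_nt.SmallBase

theorem result : ∀ K : ℕ, ∀ ε : ℝ, 0 < ε → ∃ δ : ℝ, 0 < δ ∧ ∃ N₀ : ℕ, ∀ N : ℕ, N₀ ≤ N →
    (({B : ℕ | 0 < B ∧ B ≤ N ∧ ∃ A x y z C : ℕ, 0 < A ∧ Nat.Coprime A B ∧
      0 < x ∧ 0 < y ∧ 0 < C ∧ (((A : ℝ) ≤ (N : ℝ) ^ δ ∧ 3 ≤ z) ∨ (2 ≤ A ∧ A ≤ K ∧ 2 ≤ z)) ∧
      (A ^ x + B ^ y = C ^ z ∨ A ^ x + C ^ z = B ^ y ∨ B ^ y + C ^ z = A ^ x)}.ncard : ℕ) : ℝ) ≤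
      ε * N :=
  Pool.Agent.H374R2.V.mainF

end Pool.Agent.Results.MP_2738db_nt.SmallBase
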