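import Mathlib
import Pool.Agent.H458.Sp.FCAll

set_option autoImplicit false

/-!
# Effective bounds for coprime solutions of the generalized Fermat equation with few digits

Let `1/p + 1/q + 1/s ≤ 1` and let `u`, `v`, `w` be nonzero integers.  All solutions of
`u x ^ p + v y ^ q + w z ^ s = 0` in nonzero integers with `x`, `y` coprime such that `x`, `y`, `z`
are combinations of the same `r` powers of some integer `b ≥ 2` with integral coefficients of
absolute value at most `B` are bounded by an explicit number, which does not depend on `b` and is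
a polynomial in `B` and the coefficients `u`, `v`, `w` for fixed `r` and exponents.

Method: Dirichlet's box principle applied to the exponents of `b` gives polynomials `X`, `Y`, `Z`
in one variable with `u X ^ p + v Y ^ q + w Z ^ s = 0` and values `x`, `y`, `z` at `b ^ 2`.  The
exponents are separated in such a way that all complex roots of `X` are smaller than `b ^ 2 - 1`,
so a nonconstant common factor of `X` and `Y` would have a value larger than `1` at `b ^ 2`, which
would divide `x` and `y`.  So `X` and `Y` are coprime, and constant by the Mason-Stothers theorem.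
For large bases the exponents themselves give the polynomials.
-/

namespace Pool.Agent.Results.MP_2738db_nt.SparseSolutions

open Pool.Agent.H458.Sp

/-- `x 0`, `x 1`, `x 2` are combinations of the same `r` powers of `b`, with integral coefficients
of absolute value at most `B` -/
def SparseTriple (b r B : ℕ) (x : Fin 3 → ℤ) : Prop :=
  ∃ (e : Fin r → ℕ) (c : Fin 3 → Fin r → ℤ), (∀ i j, |c i j| ≤ B) ∧
    ∀ i, x i = ∑ j, c i j * (b : ℤ) ^ (e j)

/-- the threshold for the base -/
def baseBound (r B T d : ℕ) : ℕ := (1 + T) * (r * B) ^ d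

/-- the bound, with `b = baseBound r B T d` -/
def bound (b r B T d : ℕ) : ℕ :=
  r * (b * B) * (b ^ 2 * ((1 + T) * (r * (b * B)) ^ d)) ^ (8 * (4 * d) ^ r) ^ (r * r + 1)

theorem result (p q s : ℕ) (hp : 1 ≤ p) (hq : 1 ≤ q) (hs : 1 ≤ s)
    (hyp : 1 / (p : ℚ) + 1 / (q : ℚ) + 1 / (s : ℚ) ≤ 1)
    (u v w : ℤ) (hu : u ≠ 0) (hv : v ≠ 0) (hw : w ≠ 0)
    (x y z : ℤ) (hx : x ≠ 0) (hy : y ≠ 0) (hz : z ≠ 0) (hcop : IsCoprime x y)
    (heq : u * x ^ p + v * y ^ q + w * z ^ s = 0)
    (b : ℕ) (hb : 2 ≤ b) (r B : ℕ) (hS : SparseTriple b r B ![x, y, z]) :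
    max |x| (max |y| |z|) ≤
      (bound (baseBound r B (|u| + |v| + |w|).toNat (max p (max q s))) r B
        (|u| + |v| + |w|).toNat (max p (max q s)) : ℤ) := by
  obtain ⟨e, c, hc, hrep⟩ := hS
  have hyp' : q * s + s * p + p * q ≤ p * q * s := by
    have hp' : (0 : ℚ) < p := by exact_mod_cast hp
    have hq' : (0 : ℚ) < q := by exact_mod_cast hq
    have hs' : (0 : ℚ) < s := by exact_mod_cast hs
    have h1 : (p * q * s : ℚ) * (1 / (p : ℚ) + 1 / (q : ℚ) + 1 / (s : ℚ)) ≤ (p * q * s : ℚ) * 1 :=
      mul_le_mul_of_nonneg_left hyp (by positivity)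
    have h2 : (p * q * s : ℚ) * (1 / (p : ℚ) + 1 / (q : ℚ) + 1 / (s : ℚ)) =
        q * s + s * p + p * q := by
      field_simp
    rw [h2, mul_one] at h1
    exact_mod_cast h1
  have hT : |u| + |v| + |w| ≤ (((|u| + |v| + |w|).toNat : ℕ) : ℤ) := Int.self_le_toNat _
  have key := fc_all p q s hp hq hs hyp' u v w hu hv hw b hb B e c hc ![x, y, z] hrep (by
      intro i
      fin_cases i
      · exact hx
      · exact hy
      · exact hz) hcop heq (max p (max q s)) (le_max_left _ _)
    ((le_max_left _ _).trans (le_max_right _ _)) ((le_max_right _ _).trans (le_max_right _ _))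
    (|u| + |v| + |w|).toNat hT _ rfl
  exact max_le (key 0) (max_le (key 1) (key 2))

end Pool.Agent.Results.MP_2738db_nt.SparseSolutions
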